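import Pool.Agent.W79.ST.Basic

/-!
Project ST (helper79), subtask ST-KEY.
-/

set_option autoImplicit false

namespace Pool.Agent.W304.ST.Key

open Pool.Agent.W79.ST
open scoped Classical

variable {Z A Z' A' : Type}

theorem inl_mem (z : Z) : (Sum.inl z : Z ⊕ A × ℕ) ∈ VS (Z := Z) (fun _ : A => 3) := by
  intro q h
  cases h

theorem inr_mem {a : A} {i : ℕ} :
    (Sum.inr (a, i) : Z ⊕ A × ℕ) ∈ VS (Z := Z) (fun _ : A => 3) ↔ i < 3 := by
  constructor
  · intro h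
    exact h (a, i) rfl
  · intro h q hq
    cases hq
    exact h

theorem ex_inl {e : VS (Z := Z) (fun _ : A => 3) → VS (Z := Z') (fun _ : A' => 3)}
    (hk : ∀ w, kap (e w).1 = kap w.1) (z : Z) :
    ∃ z', e ⟨Sum.inl z, inl_mem z⟩ = ⟨Sum.inl z', inl_mem z'⟩ := by
  have h := hk ⟨Sum.inl z, inl_mem z⟩
  rcases h1 : e ⟨Sum.inl z, inl_mem z⟩ with ⟨z' | q, h2⟩
  · exact ⟨z', rfl⟩
  · rw [h1] at h
    simp [kap] at h

theorem ex_inr {e : VS (Z := Z) (fun _ : A => 3) → VS (Z := Z') (fun _ : A' => 3)}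
    (hk : ∀ w, kap (e w).1 = kap w.1) {i : ℕ} (hi : i < 3) (a : A) :
    ∃ a', e ⟨Sum.inr (a, i), inr_mem.2 hi⟩ = ⟨Sum.inr (a', i), inr_mem.2 hi⟩ := by
  have h := hk ⟨Sum.inr (a, i), inr_mem.2 hi⟩
  rcases h1 : e ⟨Sum.inr (a, i), inr_mem.2 hi⟩ with ⟨z' | ⟨a', j⟩, h2⟩
  · rw [h1] at h
    simp [kap] at h
  · rw [h1] at h
    simp only [kap] at h
    have h3 : j = i := by omega
    subst h3
    exact ⟨a', rfl⟩

/-- the bijection of the fixed points -/
theorem ex_alpha (e : VS (Z := Z) (fun _ : A => 3) ≃ VS (Z := Z') (fun _ : A' => 3))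
    (hk : ∀ w, kap (e w).1 = kap w.1) :
    ∃ α : Z ≃ Z', ∀ z, e ⟨Sum.inl z, inl_mem z⟩ = ⟨Sum.inl (α z), inl_mem (α z)⟩ := by
  have hk' : ∀ w, kap (e.symm w).1 = kap w.1 := by
    intro w
    have := hk (e.symm w)
    rw [e.apply_symm_apply] at this
    exact this.symm
  choose f hf using ex_inl hk
  choose g hg using ex_inl (e := e.symm) hk'
  refine ⟨⟨f, g, ?_, ?_⟩, hf⟩
  · intro z
    have h1 := hg (f z)
    rw [← hf z, e.symm_apply_apply] at h1
    have h2 := congrArg Subtype.val h1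
    exact (Sum.inl.inj h2).symm
  · intro z
    have h1 := hf (g z)
    rw [← hg z, e.apply_symm_apply] at h1
    have h2 := congrArg Subtype.val h1
    exact (Sum.inl.inj h2).symm

/-- the bijections of the copies -/
theorem ex_nu (e : VS (Z := Z) (fun _ : A => 3) ≃ VS (Z := Z') (fun _ : A' => 3))
    (hk : ∀ w, kap (e w).1 = kap w.1) {i : ℕ} (hi : i < 3) :
    ∃ ν : A ≃ A', ∀ a, e ⟨Sum.inr (a, i), inr_mem.2 hi⟩ =
      ⟨Sum.inr (ν a, i), inr_mem.2 hi⟩ := by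
  have hk' : ∀ w, kap (e.symm w).1 = kap w.1 := by
    intro w
    have := hk (e.symm w)
    rw [e.apply_symm_apply] at this
    exact this.symm
  choose f hf using ex_inr hk hi
  choose g hg using ex_inr (e := e.symm) hk' hi
  refine ⟨⟨f, g, ?_, ?_⟩, hf⟩
  · intro z
    have h1 := hg (f z)
    rw [← hf z, e.symm_apply_apply] at h1
    have h2 := congrArg Subtype.val h1
    exact (congrArg Prod.fst (Sum.inr.inj h2)).symm
  · intro z
    have h1 := hf (g z)
    rw [← hg z, e.apply_symm_apply] at h1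
    have h2 := congrArg Subtype.val h1
    exact (congrArg Prod.fst (Sum.inr.inj h2)).symm

theorem exists_third (i : ℕ) (hi : i < 3) : ∃ j l, j < 3 ∧ l < 3 ∧ i ≠ j ∧ i ≠ l ∧ j ≠ l := by
  interval_cases i
  · exact ⟨1, 2, by omega, by omega, by omega, by omega, by omega⟩
  · exact ⟨0, 2, by omega, by omega, by omega, by omega, by omega⟩
  · exact ⟨0, 1, by omega, by omega, by omega, by omega, by omega⟩

theorem main : S_KEY := by
  intro Z A Z' A' S S' e he
  have hk : ∀ w, kap (e w).1 = kap w.1 := fun w => (he w).1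
  obtain ⟨α, hα⟩ := ex_alpha e.toEquiv hk
  have hν : ∀ i : ℕ, ∃ ν : A ≃ A', ∀ hi : i < 3, ∀ a, e ⟨Sum.inr (a, i), inr_mem.2 hi⟩ =
      ⟨Sum.inr (ν a, i), inr_mem.2 hi⟩ := by
    intro i
    by_cases hi : i < 3
    · obtain ⟨ν, h⟩ := ex_nu e.toEquiv hk hi
      exact ⟨ν, fun _ => h⟩
    · obtain ⟨ν, h⟩ := ex_nu e.toEquiv hk (i := 0) (by omega)
      exact ⟨ν, fun h => absurd h hi⟩
  choose ν hν using hν
  have hα' : ∀ z, e ⟨Sum.inl z, inl_mem z⟩ = ⟨Sum.inl (α z), inl_mem (α z)⟩ := hα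
  have had : ∀ u v, xadj S' (e u).1 (e v).1 ↔ xadj S u.1 v.1 := fun u v => e.map_adj_iff
  have hF : ∀ i j, ∀ hi : i < 3, ∀ hj : j < 3, i ≠ j → ∀ a b,
      S'.F (ν i a) (ν j b) ↔ S.F a b := by
    intro i j hi hj hij a b
    have h := had ⟨Sum.inr (a, i), inr_mem.2 hi⟩ ⟨Sum.inr (b, j), inr_mem.2 hj⟩
    rw [hν i hi a, hν j hj b] at h
    simp only [xadj, hij, ne_eq, not_false_eq_true, forall_const, false_implies, true_and] at h
    exact h
  refine ⟨α, ν, fun z h => ?_, fun i hi a h => ?_, fun i hi => ⟨?_, ?_, ?_⟩⟩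
  · exact congrArg Subtype.val (hα' z)
  · exact congrArg Subtype.val (hν i hi a)
  · rintro (z | a) (w | b)
    · have h := had ⟨Sum.inl z, inl_mem z⟩ ⟨Sum.inl w, inl_mem w⟩
      rw [hα' z, hα' w] at h
      exact h
    · have h := had ⟨Sum.inl z, inl_mem z⟩ ⟨Sum.inr (b, i), inr_mem.2 hi⟩
      rw [hα' z, hν i hi b] at h
      exact h
    · have h := had ⟨Sum.inr (a, i), inr_mem.2 hi⟩ ⟨Sum.inl w, inl_mem w⟩
      rw [hν i hi a, hα' w] at h
      exact h
    · have h := had ⟨Sum.inr (a, i), inr_mem.2 hi⟩ ⟨Sum.inr (b, i), inr_mem.2 hi⟩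
      rw [hν i hi a, hν i hi b] at h
      simp only [xadj, ne_eq, not_true_eq_false, false_implies, and_true, forall_const] at h
      exact h
  · intro a b
    obtain ⟨j, l, hj, hl, hij, hil, hjl⟩ := exists_third i hi
    have h1 : ∀ w, S'.F w (ν j b) ↔ S'.F w (ν i b) := by
      intro w
      obtain ⟨c, rfl⟩ := (ν l).surjective w
      rw [hF l j hl hj (Ne.symm hjl), hF l i hl hi (Ne.symm hil)]
    rw [← h1, hF i j hi hj hij]
  · intro a
    have h := (he ⟨Sum.inr (a, i), inr_mem.2 hi⟩).2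
    rw [hν i hi a] at h
    exact h

end Pool.Agent.W304.ST.Key
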